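import Mathlib

set_option autoImplicit false

namespace Pool.Agent.Helper736_QR

open Finset

/-- the number of maps sending `S` into `T` -/
theorem card_maps_into {α β : Type} [Fintype α] [DecidableEq α] [Fintype β] [DecidableEq β]
    (S : Finset α) (T : Finset β) :
    (univ.filter (fun g : α → β => ∀ x ∈ S, g x ∈ T)).card =
      T.card ^ S.card * (Fintype.card β) ^ (Fintype.card α - S.card) := by
  classical
  have h : univ.filter (fun g : α → β => ∀ x ∈ S, g x ∈ T) =
      Fintype.piFinset (fun x => if x ∈ S then T else univ) := by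
    ext g
    simp only [mem_filter, mem_univ, true_and, Fintype.mem_piFinset]
    constructor
    · intro h x
      by_cases hx : x ∈ S
      · simp [hx, h x hx]
      · simp [hx]
    · intro h x hx
      have := h x
      simpa [hx] using this
  rw [h, Fintype.card_piFinset]
  have h2 : ∀ x : α, (if x ∈ S then T else (univ : Finset β)).card =
      if x ∈ S then T.card else Fintype.card β := by
    intro x
    split_ifs <;> simp
  simp_rw [h2]
  rw [Finset.prod_ite]
  simp only [prod_const]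
  congr 2
  · congr 1
    ext x
    simp
  · rw [Finset.filter_not, Finset.card_sdiff_of_subset (by simp)]
    simp

/-- few maps have a small image on `S` -/
theorem card_small_image_nat {α : Type} [Fintype α] [DecidableEq α] (a : ℕ) (S : Finset α)
    (ha : S.card ≤ a) :
    (univ.filter (fun g : α → Fin a => 3 * (S.image g).card ≤ S.card)).card ≤
      a.choose (S.card / 3) * ((S.card / 3) ^ S.card * a ^ (Fintype.card α - S.card)) := by
  classical
  have hsub : univ.filter (fun g : α → Fin a => 3 * (S.image g).card ≤ S.card) ⊆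
      (powersetCard (S.card / 3) (univ : Finset (Fin a))).biUnion
        (fun T => univ.filter (fun g : α → Fin a => ∀ x ∈ S, g x ∈ T)) := by
    intro g hg
    simp only [mem_filter, mem_univ, true_and] at hg
    have h1 : (S.image g).card ≤ S.card / 3 := by omega
    have h2 : S.card / 3 ≤ (univ : Finset (Fin a)).card := by
      rw [card_univ, Fintype.card_fin]
      omega
    obtain ⟨T, hT1, -, hT2⟩ := Finset.exists_subsuperset_card_eq (subset_univ (S.image g)) h1 h2
    simp only [mem_biUnion, mem_powersetCard, mem_filter, mem_univ, true_and]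
    exact ⟨T, ⟨subset_univ _, hT2⟩, fun x hx => hT1 (mem_image_of_mem g hx)⟩
  refine (card_le_card hsub).trans (card_biUnion_le.trans ?_)
  have : ∀ T ∈ powersetCard (S.card / 3) (univ : Finset (Fin a)),
      (univ.filter (fun g : α → Fin a => ∀ x ∈ S, g x ∈ T)).card =
        (S.card / 3) ^ S.card * a ^ (Fintype.card α - S.card) := by
    intro T hT
    rw [mem_powersetCard] at hT
    rw [card_maps_into, hT.2, Fintype.card_fin]
  rw [sum_congr rfl this, sum_const, card_powersetCard, card_univ, Fintype.card_fin, smul_eq_mul]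

theorem real_bound (a s : ℕ) (ha : 0 < a) (hs : s ≤ a) :
    (a.choose (s / 3) : ℝ) * ((s / 3 : ℕ) : ℝ) ^ s ≤
      (a : ℝ) ^ s * ((s : ℝ) / a) ^ ((2 / 3 : ℝ) * s) := by
  set t := s / 3 with ht
  have ha' : (0 : ℝ) < a := by exact_mod_cast ha
  rcases Nat.eq_zero_or_pos t with h0 | h0
  · rcases Nat.eq_zero_or_pos s with hs0 | hs0
    · subst hs0
      simp [h0]
    · rw [h0]
      simp only [Nat.choose_zero_right, Nat.cast_one, one_mul, Nat.cast_zero]
      rw [zero_pow (by omega)]
      positivity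
  have ht' : (0 : ℝ) < t := by exact_mod_cast h0
  have h3 : 3 * t ≤ s := by omega
  have h3' : 3 * (t : ℝ) ≤ s := by exact_mod_cast h3
  have hs0 : (0 : ℝ) < s := by linarith
  have hsa : (s : ℝ) ≤ a := by exact_mod_cast hs
  -- choose bound
  have c1 : (a.choose t : ℝ) ≤ (a : ℝ) ^ t / (t.factorial : ℝ) := Nat.choose_le_pow_div t a
  have c2 : (t : ℝ) ^ t / (t.factorial : ℝ) ≤ Real.exp t := Real.pow_div_factorial_le_exp _ ht'.le t
  have c3 : Real.exp (t : ℝ) ≤ (3 : ℝ) ^ (t : ℝ) := by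
    have h := Real.exp_one_lt_three
    calc Real.exp (t : ℝ) = (Real.exp 1) ^ (t : ℝ) := by
          rw [← Real.exp_mul, one_mul]
      _ ≤ (3 : ℝ) ^ (t : ℝ) := Real.rpow_le_rpow (Real.exp_pos _).le h.le ht'.le
  have hts : t ≤ s := by omega
  have e1 : (t : ℝ) ^ s = (t : ℝ) ^ t * (t : ℝ) ^ (s - t) := by
    rw [← pow_add]
    congr 1
    omega
  have step1 : (a.choose t : ℝ) * (t : ℝ) ^ s ≤ (a : ℝ) ^ t * Real.exp t * (t : ℝ) ^ (s - t) := by
    rw [e1]
    calc (a.choose t : ℝ) * ((t : ℝ) ^ t * (t : ℝ) ^ (s - t))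
        ≤ ((a : ℝ) ^ t / (t.factorial : ℝ)) * ((t : ℝ) ^ t * (t : ℝ) ^ (s - t)) := by gcongr
      _ = (a : ℝ) ^ t * ((t : ℝ) ^ t / (t.factorial : ℝ)) * (t : ℝ) ^ (s - t) := by ring
      _ ≤ (a : ℝ) ^ t * Real.exp t * (t : ℝ) ^ (s - t) := by gcongr
  have e2 : (a : ℝ) ^ t * Real.exp t * (t : ℝ) ^ (s - t) =
      (a : ℝ) ^ s * (Real.exp t * ((t : ℝ) / a) ^ (s - t)) := by
    have : (a : ℝ) ^ s = (a : ℝ) ^ t * (a : ℝ) ^ (s - t) := by
      rw [← pow_add]
      congr 1
      omega
    rw [this, div_pow]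
    field_simp
  rw [e2] at step1
  refine step1.trans ?_
  apply mul_le_mul_of_nonneg_left _ (by positivity)
  have hta0 : 0 < (t : ℝ) / a := by positivity
  have hta1 : (t : ℝ) / a ≤ 1 := by
    rw [div_le_one ha']
    linarith
  have e3 : ((t : ℝ) / a) ^ (s - t) ≤ ((t : ℝ) / a) ^ ((2 / 3 : ℝ) * s) := by
    rw [← Real.rpow_natCast]
    apply Real.rpow_le_rpow_of_exponent_ge hta0 hta1
    rw [Nat.cast_sub hts]
    linarith
  have e4 : ((t : ℝ) / a) ^ ((2 / 3 : ℝ) * s) ≤ ((s : ℝ) / a / 3) ^ ((2 / 3 : ℝ) * s) := by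
    apply Real.rpow_le_rpow hta0.le _ (by positivity)
    rw [div_div, div_le_div_iff₀ ha' (by positivity)]
    nlinarith
  have e5 : ((s : ℝ) / a / 3) ^ ((2 / 3 : ℝ) * s) =
      ((s : ℝ) / a) ^ ((2 / 3 : ℝ) * s) / (3 : ℝ) ^ ((2 / 3 : ℝ) * s) :=
    Real.div_rpow (by positivity) (by norm_num) _
  have e6 : Real.exp (t : ℝ) ≤ (3 : ℝ) ^ ((2 / 3 : ℝ) * s) := by
    refine c3.trans ?_
    apply Real.rpow_le_rpow_of_exponent_le (by norm_num)
    linarith
  calc Real.exp t * ((t : ℝ) / a) ^ (s - t)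
      ≤ (3 : ℝ) ^ ((2 / 3 : ℝ) * s) *
        (((s : ℝ) / a) ^ ((2 / 3 : ℝ) * s) / (3 : ℝ) ^ ((2 / 3 : ℝ) * s)) := by
        rw [← e5]
        exact mul_le_mul e6 (e3.trans e4) (by positivity) (by positivity)
    _ = ((s : ℝ) / a) ^ ((2 / 3 : ℝ) * s) := by
        field_simp

/-- few maps have a small image on `S` -/
theorem card_small_image {α : Type} [Fintype α] [DecidableEq α] (a : ℕ) (ha0 : 0 < a)
    (S : Finset α) (ha : S.card ≤ a) :
    ((univ.filter (fun g : α → Fin a => 3 * (S.image g).card ≤ S.card)).card : ℝ) ≤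
      (a : ℝ) ^ Fintype.card α * ((S.card : ℝ) / a) ^ ((2 / 3 : ℝ) * S.card) := by
  have h1 := card_small_image_nat a S ha
  have h2 : ((univ.filter (fun g : α → Fin a => 3 * (S.image g).card ≤ S.card)).card : ℝ) ≤
      (a.choose (S.card / 3) : ℝ) * (((S.card / 3 : ℕ) : ℝ) ^ S.card *
        (a : ℝ) ^ (Fintype.card α - S.card)) := by exact_mod_cast h1
  refine h2.trans ?_
  have h3 := real_bound a S.card ha0 ha
  have e : (a : ℝ) ^ Fintype.card α = (a : ℝ) ^ S.card * (a : ℝ) ^ (Fintype.card α - S.card) := by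
    rw [← pow_add]
    congr 1
    have := S.card_le_univ
    omega
  rw [e]
  calc (a.choose (S.card / 3) : ℝ) * (((S.card / 3 : ℕ) : ℝ) ^ S.card *
        (a : ℝ) ^ (Fintype.card α - S.card))
      = ((a.choose (S.card / 3) : ℝ) * ((S.card / 3 : ℕ) : ℝ) ^ S.card) *
        (a : ℝ) ^ (Fintype.card α - S.card) := by ring
    _ ≤ ((a : ℝ) ^ S.card * ((S.card : ℝ) / a) ^ ((2 / 3 : ℝ) * S.card)) *
        (a : ℝ) ^ (Fintype.card α - S.card) := by
        apply mul_le_mul_of_nonneg_right h3 (by positivity)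
    _ = _ := by ring

end Pool.Agent.Helper736_QR
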