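import Pool.Agent.Helper736_QR.Union

set_option autoImplicit false

namespace Pool.Agent.Helper736_QR

open Finset

section

variable {F n : ℕ} {a : Fin F → ℕ}

/-- the layered graph: the vertex `b` of the large side is joined to one vertex of each level -/
def lg (f : (i : Fin F) → Fin n → Fin (a i)) : SimpleGraph (Fin n ⊕ (Σ i : Fin F, Fin (a i))) where
  Adj u v := match u, v with
    | Sum.inl b, Sum.inr x => f x.1 b = x.2
    | Sum.inr x, Sum.inl b => f x.1 b = x.2
    | Sum.inl _, Sum.inl _ => False
    | Sum.inr _, Sum.inr _ => False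
  symm := ⟨by
    rintro (u | u) (v | v) h
    · exact h
    · exact h
    · exact h
    · exact h⟩
  loopless := ⟨by
    rintro (u | u) h
    · exact h
    · exact h⟩

theorem lg_adj_lr (f : (i : Fin F) → Fin n → Fin (a i)) (b : Fin n) (x : Σ i : Fin F, Fin (a i)) :
    (lg f).Adj (Sum.inl b) (Sum.inr x) ↔ f x.1 b = x.2 := Iff.rfl

theorem lg_adj_ll (f : (i : Fin F) → Fin n → Fin (a i)) (b c : Fin n) :
    ¬ (lg f).Adj (Sum.inl b) (Sum.inl c) := fun h => h

theorem lg_adj_rr (f : (i : Fin F) → Fin n → Fin (a i)) (x y : Σ i : Fin F, Fin (a i)) :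
    ¬ (lg f).Adj (Sum.inr x) (Sum.inr y) := fun h => h

theorem lg_edges (f : (i : Fin F) → Fin n → Fin (a i)) : F * n ≤ (lg f).edgeSet.ncard := by
  classical
  set e : Fin F × Fin n → Sym2 (Fin n ⊕ (Σ i : Fin F, Fin (a i))) :=
    fun p => s(Sum.inl p.2, Sum.inr ⟨p.1, f p.1 p.2⟩) with he
  have hinj : Function.Injective e := by
    rintro ⟨i, b⟩ ⟨j, c⟩ h
    simp only [he, Sym2.eq_iff, Sum.inl.injEq, Sum.inr.injEq, Sigma.mk.injEq, reduceCtorEq,
      false_and, or_false] at h
    obtain ⟨h1, h2, -⟩ := h
    rw [h1, h2]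
  have hsub : Set.range e ⊆ (lg f).edgeSet := by
    rintro _ ⟨⟨i, b⟩, rfl⟩
    rw [he, SimpleGraph.mem_edgeSet, lg_adj_lr]
  have hcard : (Set.range e).ncard = F * n := by
    rw [← Set.image_univ, Set.ncard_image_of_injective _ hinj, Set.ncard_univ, Nat.card_prod]
    simp
  rw [← hcard]
  exact Set.ncard_le_ncard hsub (Set.toFinite _)

end

open Classical in
theorem lg_no_subgraph (F D q : ℕ) (f : (i : Fin F) → Fin (nn F q) → Fin (aa F q i))
    (hf : ∀ B S, Valid F D q B S → ∃ i, (S i).card < 3 * ((S i).image (f i)).card)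
    (H : (lg f).Subgraph) (hne : H.verts.Nonempty)
    (hdeg : ∀ v ∈ H.verts, 3 ≤ (H.neighborSet v).ncard ∧ (H.neighborSet v).ncard ≤ D) : False := by
  set B : Finset (Fin (nn F q)) := univ.filter (fun b => Sum.inl b ∈ H.verts) with hB
  set S : Fin F → Finset (Fin (nn F q)) :=
    fun i => univ.filter (fun b => H.Adj (Sum.inl b) (Sum.inr ⟨i, f i b⟩)) with hS
  have hSB : ∀ i, S i ⊆ B := by
    intro i b hb
    simp only [hS, mem_filter, mem_univ, true_and] at hb
    simp only [hB, mem_filter, mem_univ, true_and]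
    exact H.edge_vert hb
  -- degrees on the large side
  have hd1 : ∀ b ∈ B, 3 ≤ (univ.filter (fun i => b ∈ S i)).card := by
    intro b hb
    simp only [hB, mem_filter, mem_univ, true_and] at hb
    have h1 := (hdeg _ hb).1
    have h2 : H.neighborSet (Sum.inl b) =
        (fun i : Fin F => (Sum.inr ⟨i, f i b⟩ : Fin (nn F q) ⊕ (Σ i : Fin F, Fin (aa F q i)))) ''
          ((univ.filter (fun i => b ∈ S i) : Finset (Fin F)) : Set (Fin F)) := by
      ext u
      rw [SimpleGraph.Subgraph.mem_neighborSet]
      constructor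
      · intro h
        have hadj := H.adj_sub h
        rcases u with c | ⟨i, x⟩
        · exact absurd hadj (lg_adj_ll f b c)
        · rw [lg_adj_lr] at hadj
          simp only at hadj
          subst hadj
          refine ⟨i, ?_, rfl⟩
          simp only [hS, coe_filter, mem_filter, mem_univ, true_and, Set.mem_ofPred_eq]
          exact h
      · rintro ⟨i, hi, rfl⟩
        simpa only [hS, coe_filter, mem_filter, mem_univ, true_and, Set.mem_ofPred_eq] using hi
    rw [h2, Set.ncard_image_of_injective, Set.ncard_coe_finset] at h1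
    · exact h1
    · intro i j h
      simp only [Sum.inr.injEq, Sigma.mk.injEq] at h
      exact h.1
  have hsum : 3 * B.card ≤ ∑ i, (S i).card := by
    have e : ∑ i, (S i).card = ∑ b : Fin (nn F q), (univ.filter (fun i => b ∈ S i)).card := by
      simp_rw [card_filter]
      rw [sum_comm]
      refine sum_congr rfl fun i _ => ?_
      rw [card_eq_sum_ones, ← sum_filter]
      congr 1
      ext b
      simp
    rw [e]
    calc 3 * B.card = ∑ b ∈ B, 3 := by rw [sum_const, smul_eq_mul, mul_comm]
      _ ≤ ∑ b ∈ B, (univ.filter (fun i => b ∈ S i)).card := sum_le_sum hd1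
      _ ≤ _ := sum_le_sum_of_subset (subset_univ _)
  -- degrees on the levels
  have hd2 : ∀ i, ∀ x ∈ (S i).image (f i), 3 ≤ ((S i).filter (fun b => f i b = x)).card ∧
      ((S i).filter (fun b => f i b = x)).card ≤ D := by
    intro i x hx
    rw [mem_image] at hx
    obtain ⟨b, hb, hbx⟩ := hx
    have hv : (Sum.inr ⟨i, x⟩ : Fin (nn F q) ⊕ (Σ i : Fin F, Fin (aa F q i))) ∈ H.verts := by
      simp only [hS, mem_filter, mem_univ, true_and] at hb
      rw [hbx] at hb
      exact H.edge_vert hb.symm
    have h1 := hdeg _ hv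
    have h2 : H.neighborSet (Sum.inr ⟨i, x⟩) =
        (fun b : Fin (nn F q) => (Sum.inl b : Fin (nn F q) ⊕ (Σ i : Fin F, Fin (aa F q i)))) ''
          (((S i).filter (fun b => f i b = x) : Finset (Fin (nn F q))) : Set (Fin (nn F q))) := by
      ext u
      rw [SimpleGraph.Subgraph.mem_neighborSet]
      constructor
      · intro h
        have hadj := H.adj_sub h
        rcases u with c | y
        · have hadj' := hadj.symm
          rw [lg_adj_lr] at hadj'
          simp only at hadj'
          refine ⟨c, ?_, rfl⟩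
          simp only [hS, coe_filter, mem_filter, mem_univ, true_and, Set.mem_ofPred_eq]
          refine ⟨?_, hadj'⟩
          rw [hadj']
          exact h.symm
        · exact absurd hadj (lg_adj_rr f _ _)
      · rintro ⟨c, hc, rfl⟩
        simp only [hS, coe_filter, mem_filter, mem_univ, true_and, Set.mem_ofPred_eq] at hc
        have h := hc.1
        rw [hc.2] at h
        exact h.symm
    rw [h2, Set.ncard_image_of_injective _ Sum.inl_injective, Set.ncard_coe_finset] at h1
    exact h1
  have hfib : ∀ i, (S i).card = ∑ x ∈ (S i).image (f i), ((S i).filter (fun b => f i b = x)).card :=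
    fun i => card_eq_sum_card_image (f i) (S i)
  have h3 : ∀ i, 3 * ((S i).image (f i)).card ≤ (S i).card := by
    intro i
    rw [hfib i]
    calc 3 * ((S i).image (f i)).card = ∑ x ∈ (S i).image (f i), 3 := by
          rw [sum_const, smul_eq_mul, mul_comm]
      _ ≤ _ := sum_le_sum fun x hx => (hd2 i x hx).1
  have hD : ∀ i, (S i).card ≤ D * aa F q i := by
    intro i
    rw [hfib i]
    calc ∑ x ∈ (S i).image (f i), ((S i).filter (fun b => f i b = x)).card
        ≤ ∑ x ∈ (S i).image (f i), D := sum_le_sum fun x hx => (hd2 i x hx).2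
      _ = ((S i).image (f i)).card * D := by rw [sum_const, smul_eq_mul]
      _ ≤ aa F q i * D := by
          apply Nat.mul_le_mul_right
          have := ((S i).image (f i)).card_le_univ
          rwa [Fintype.card_fin] at this
      _ = _ := mul_comm _ _
  have hBne : B.Nonempty := by
    obtain ⟨v, hv⟩ := hne
    rcases v with b | x
    · exact ⟨b, by simp only [hB, mem_filter, mem_univ, true_and]; exact hv⟩
    · have h1 := (hdeg _ hv).1
      have h2 : (H.neighborSet (Sum.inr x)).Nonempty := by
        rw [Set.nonempty_iff_ne_empty]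
        intro h
        rw [h, Set.ncard_empty] at h1
        omega
      obtain ⟨u, hu⟩ := h2
      rw [SimpleGraph.Subgraph.mem_neighborSet] at hu
      rcases u with c | y
      · exact ⟨c, by simp only [hB, mem_filter, mem_univ, true_and]; exact H.edge_vert hu.symm⟩
      · exact absurd (H.adj_sub hu) (lg_adj_rr f _ _)
  obtain ⟨i, hi⟩ := hf B S ⟨hBne, hSB, hD, hsum⟩
  have := h3 i
  omega

theorem exists_graph (F D : ℕ) (hF : 1 ≤ F) : ∃ (n : ℕ) (G : SimpleGraph (Fin n)), 1 ≤ n ∧
    F * n ≤ 2 * G.edgeSet.ncard ∧ ∀ H : G.Subgraph, H.verts.Nonempty →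
      ¬ ∀ v ∈ H.verts, 3 ≤ (H.neighborSet v).ncard ∧ (H.neighborSet v).ncard ≤ D := by
  classical
  set q := 8 * F * D + 12 * 2 ^ F + F + 2 with hq
  obtain ⟨f, hf⟩ := exists_good F D q (by omega) (by omega) (by omega)
  have hq0 : 0 < q := by omega
  have hcard : Fintype.card (Fin (nn F q) ⊕ (Σ i : Fin F, Fin (aa F q i))) =
      nn F q + ∑ i : Fin F, aa F q i := by
    rw [Fintype.card_sum, Fintype.card_sigma, Fintype.card_fin]
    simp
  have hsum : ∑ i : Fin F, aa F q i ≤ nn F q := by
    have h1 : ∀ i : Fin F, F * aa F q i ≤ nn F q := by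
      intro i
      rw [nn_eq F q i i.2, mul_comm]
      apply Nat.mul_le_mul_left
      calc F ≤ q ^ 1 := by rw [pow_one]; omega
        _ ≤ q ^ (16 ^ (i : ℕ)) := Nat.pow_le_pow_right hq0 (Nat.one_le_pow _ _ (by norm_num))
    have h2 : F * ∑ i : Fin F, aa F q i ≤ F * nn F q := by
      calc F * ∑ i : Fin F, aa F q i = ∑ i : Fin F, F * aa F q i := mul_sum _ _ _
        _ ≤ ∑ i : Fin F, nn F q := sum_le_sum fun i _ => h1 i
        _ = F * nn F q := by simp
    exact Nat.le_of_mul_le_mul_left h2 hF
  set N := Fintype.card (Fin (nn F q) ⊕ (Σ i : Fin F, Fin (aa F q i))) with hN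
  set e : (Fin (nn F q) ⊕ (Σ i : Fin F, Fin (aa F q i))) ≃ Fin N := Fintype.equivFin _ with he
  set G' : SimpleGraph (Fin N) := (lg f).comap e.symm with hG'
  refine ⟨N, G', ?_, ?_, ?_⟩
  · have := nn_pos F q hq0
    omega
  · have h1 := lg_edges f
    have h2 : (lg f).edgeSet.ncard ≤ G'.edgeSet.ncard := by
      have hsub : (Sym2.map e) '' (lg f).edgeSet ⊆ G'.edgeSet := by
        rintro _ ⟨z, hz, rfl⟩
        induction z using Sym2.ind with
        | _ x y =>
          rw [SimpleGraph.mem_edgeSet] at hz
          rw [Sym2.map_mk, SimpleGraph.mem_edgeSet, hG', SimpleGraph.comap_adj]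
          simpa using hz
      have := Set.ncard_le_ncard hsub (Set.toFinite _)
      rwa [Set.ncard_image_of_injective _ (Sym2.map.injective e.injective)] at this
    calc F * N ≤ F * (2 * nn F q) := by
          apply Nat.mul_le_mul_left
          omega
      _ = 2 * (F * nn F q) := by ring
      _ ≤ 2 * G'.edgeSet.ncard := by omega
  · intro H hne hdeg
    set φ : G' →g lg f := ⟨e.symm, fun {x y} h => h⟩ with hφ
    have hφinj : Function.Injective φ := e.symm.injective
    refine lg_no_subgraph F D q f hf (H.map φ) ?_ ?_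
    · obtain ⟨v, hv⟩ := hne
      exact ⟨φ v, v, hv, rfl⟩
    · rintro _ ⟨v, hv, rfl⟩
      have hnb : (H.map φ).neighborSet (φ v) = φ '' (H.neighborSet v) := by
        ext u
        rw [SimpleGraph.Subgraph.mem_neighborSet, SimpleGraph.Subgraph.map_adj]
        constructor
        · rintro ⟨x, y, hxy, hx, rfl⟩
          have := hφinj hx
          subst this
          exact ⟨y, hxy, rfl⟩
        · rintro ⟨y, hy, rfl⟩
          exact ⟨v, y, hy, rfl, rfl⟩
      rw [hnb, Set.ncard_image_of_injective _ hφinj]
      exact hdeg v hv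

end Pool.Agent.Helper736_QR
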