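import Pool.Agent.Helper736_QR.Count

set_option autoImplicit false

namespace Pool.Agent.Helper736_QR

open Finset

/-- the size of the large side -/
def nn (F q : ℕ) : ℕ := q ^ (16 ^ F)

/-- the size of the `i`-th level -/
def aa (F q i : ℕ) : ℕ := q ^ (16 ^ F - 16 ^ i)

theorem nn_eq (F q i : ℕ) (hi : i < F) : nn F q = aa F q i * q ^ (16 ^ i) := by
  unfold nn aa
  rw [← pow_add]
  congr 1
  have : 16 ^ i ≤ 16 ^ F := Nat.pow_le_pow_right (by norm_num) hi.le
  omega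

theorem aa_pos (F q i : ℕ) (hq : 0 < q) : 0 < aa F q i := pow_pos hq _

theorem nn_pos (F q : ℕ) (hq : 0 < q) : 0 < nn F q := pow_pos hq _

theorem sum_union_le' {ι : Type} [DecidableEq ι] (A B : Finset ι) (s : ι → ℕ) :
    ∑ i ∈ A ∪ B, s i ≤ ∑ i ∈ A, s i + ∑ i ∈ B, s i := by
  have h := Finset.sum_union_inter (s₁ := A) (s₂ := B) (f := s)
  omega

theorem prod_bound (F D q m : ℕ) (hq : 2 ≤ q) (hqD : 8 * F * D ≤ q)
    (hm : 1 ≤ m) (hmn : m ≤ nn F q) (s : Fin F → ℕ) (hsm : ∀ i, s i ≤ m)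
    (hsD : ∀ i, s i ≤ D * aa F q i) (hs : 3 * m ≤ ∑ i, s i) (P : Fin F → ℝ)
    (hP0 : ∀ i, 0 ≤ P i) (hP1 : ∀ i, P i ≤ 1)
    (hP2 : ∀ i, s i ≤ aa F q i → P i ≤ ((s i : ℝ) / aa F q i) ^ ((2 / 3 : ℝ) * s i)) :
    ∏ i, P i ≤ ((m : ℝ) / nn F q / q) ^ m := by
  classical
  have hq0 : 0 < q := by omega
  have hq' : (0 : ℝ) < q := by exact_mod_cast hq0
  have hq1 : (1 : ℝ) ≤ q := by exact_mod_cast (by omega : 1 ≤ q)
  set y := Nat.log q (nn F q / m) with hy
  have hdiv : nn F q / m ≠ 0 := by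
    have : 1 ≤ nn F q / m := (Nat.one_le_div_iff (by omega)).2 hmn
    omega
  have hy1 : q ^ y ≤ nn F q / m := Nat.pow_log_le_self q hdiv
  have hy2 : nn F q / m < q ^ (y + 1) := Nat.lt_pow_succ_log_self (by omega) _
  have hy1' : m * q ^ y ≤ nn F q := by
    rw [Nat.le_div_iff_mul_le (by omega)] at hy1
    rwa [mul_comm]
  have hy2' : nn F q < m * q ^ (y + 1) := by
    rw [Nat.div_lt_iff_lt_mul (by omega)] at hy2
    rwa [mul_comm]
  set deep := univ.filter (fun i : Fin F => 16 ^ ((i : ℕ) + 1) ≤ y + 1) with hdeep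
  set low := univ.filter (fun i : Fin F => y + 2 ≤ 16 ^ (i : ℕ)) with hlow
  set mid := univ.filter (fun i : Fin F => 16 ^ (i : ℕ) ≤ y + 1 ∧ y + 1 < 16 ^ ((i : ℕ) + 1))
    with hmid
  have hcover : ∑ i, s i ≤ ∑ i ∈ deep, s i + ∑ i ∈ mid, s i + ∑ i ∈ low, s i := by
    have h : (univ : Finset (Fin F)) ⊆ (deep ∪ mid) ∪ low := by
      intro i _
      simp only [hdeep, hmid, hlow, mem_union, mem_filter, mem_univ, true_and]
      omega
    calc ∑ i, s i ≤ ∑ i ∈ (deep ∪ mid) ∪ low, s i := sum_le_sum_of_subset h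
      _ ≤ ∑ i ∈ deep ∪ mid, s i + ∑ i ∈ low, s i := sum_union_le' _ _ _
      _ ≤ ∑ i ∈ deep, s i + ∑ i ∈ mid, s i + ∑ i ∈ low, s i := by
        gcongr
        exact sum_union_le' _ _ _
  have hmid1 : mid.card ≤ 1 := by
    rw [card_le_one]
    intro i hi j hj
    simp only [hmid, mem_filter, mem_univ, true_and] at hi hj
    by_contra hne
    rcases lt_or_gt_of_ne (fun h => hne (Fin.ext h) : (i : ℕ) ≠ j) with h | h
    · have : 16 ^ ((i : ℕ) + 1) ≤ 16 ^ (j : ℕ) := Nat.pow_le_pow_right (by norm_num) h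
      omega
    · have : 16 ^ ((j : ℕ) + 1) ≤ 16 ^ (i : ℕ) := Nat.pow_le_pow_right (by norm_num) h
      omega
  have hmidS : ∑ i ∈ mid, s i ≤ m := by
    calc ∑ i ∈ mid, s i ≤ ∑ i ∈ mid, m := sum_le_sum fun i _ => hsm i
      _ = mid.card * m := by rw [sum_const, smul_eq_mul]
      _ ≤ 1 * m := Nat.mul_le_mul_right _ hmid1
      _ = m := one_mul m
  have hlow1 : ∀ i ∈ low, 8 * F * s i ≤ m := by
    intro i hi
    simp only [hlow, mem_filter, mem_univ, true_and] at hi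
    have h1 := nn_eq F q i i.2
    have h2 : aa F q i * (q * q ^ (y + 1)) ≤ aa F q i * q ^ (16 ^ (i : ℕ)) := by
      apply Nat.mul_le_mul_left
      rw [← pow_succ']
      exact Nat.pow_le_pow_right hq0 hi
    have h3 : (aa F q i * q) * q ^ (y + 1) < m * q ^ (y + 1) := by
      calc (aa F q i * q) * q ^ (y + 1) = aa F q i * (q * q ^ (y + 1)) := by ring
        _ ≤ aa F q i * q ^ (16 ^ (i : ℕ)) := h2
        _ = nn F q := h1.symm
        _ < _ := hy2'
    have h4 : aa F q i * q < m := lt_of_mul_lt_mul_right h3 (Nat.zero_le _)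
    calc 8 * F * s i ≤ 8 * F * (D * aa F q i) := Nat.mul_le_mul_left _ (hsD i)
      _ = (8 * F * D) * aa F q i := by ring
      _ ≤ q * aa F q i := Nat.mul_le_mul_right _ hqD
      _ ≤ m := by rw [mul_comm]; exact h4.le
  have hlowS : 8 * ∑ i ∈ low, s i ≤ m := by
    rcases Nat.eq_zero_or_pos F with hF | hF
    · subst hF
      have : low = ∅ := by
        ext i
        exact i.elim0
      rw [this]
      simp
    have h : F * (8 * ∑ i ∈ low, s i) ≤ F * m := by
      calc F * (8 * ∑ i ∈ low, s i) = ∑ i ∈ low, 8 * F * s i := by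
            rw [← mul_sum]
            ring
        _ ≤ ∑ i ∈ low, m := sum_le_sum hlow1
        _ = low.card * m := by rw [sum_const, smul_eq_mul]
        _ ≤ F * m := by
            apply Nat.mul_le_mul_right
            calc low.card ≤ (univ : Finset (Fin F)).card := card_le_univ _
              _ = F := by simp
    exact Nat.le_of_mul_le_mul_left h hF
  have hdeepS : 15 * m ≤ 8 * ∑ i ∈ deep, s i := by omega
  -- `y` is large
  have hy15 : 15 ≤ y := by
    have hne : deep.Nonempty := by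
      rw [nonempty_iff_ne_empty]
      intro h
      rw [h] at hdeepS
      simp at hdeepS
      omega
    obtain ⟨i, hi⟩ := hne
    simp only [hdeep, mem_filter, mem_univ, true_and] at hi
    have : 16 ^ 1 ≤ 16 ^ ((i : ℕ) + 1) := Nat.pow_le_pow_right (by norm_num) (by omega)
    omega
  have hyr : (15 : ℝ) ≤ y := by exact_mod_cast hy15
  -- the deep levels
  have hdeepP : ∀ i ∈ deep, P i ≤ (q : ℝ) ^ (-((15 * y - 1) / 24 : ℝ) * s i) := by
    intro i hi
    simp only [hdeep, mem_filter, mem_univ, true_and] at hi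
    have h16 : 16 * 16 ^ (i : ℕ) ≤ y + 1 := by rw [← pow_succ']; exact hi
    have h1 := nn_eq F q i i.2
    have hapos : 0 < aa F q i := aa_pos F q i hq0
    have hapos' : (0 : ℝ) < aa F q i := by exact_mod_cast hapos
    have hpow : 16 ^ (i : ℕ) ≤ y := by omega
    have h2 : m * q ^ (y - 16 ^ (i : ℕ)) ≤ aa F q i := by
      have : (m * q ^ (y - 16 ^ (i : ℕ))) * q ^ (16 ^ (i : ℕ)) ≤ aa F q i * q ^ (16 ^ (i : ℕ)) := by
        calc (m * q ^ (y - 16 ^ (i : ℕ))) * q ^ (16 ^ (i : ℕ)) = m * q ^ y := by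
              rw [mul_assoc, ← pow_add]
              congr 2
              omega
          _ ≤ nn F q := hy1'
          _ = _ := h1
      exact le_of_mul_le_mul_right this (pow_pos hq0 _)
    have hma : m ≤ aa F q i := le_trans (Nat.le_mul_of_pos_right _ (pow_pos hq0 _)) h2
    have h3 := hP2 i ((hsm i).trans hma)
    refine h3.trans ?_
    have h4 : (s i : ℝ) / aa F q i ≤ (q : ℝ) ^ (-((15 * y - 1) / 16 : ℝ)) := by
      have h5 : (m : ℝ) * (q : ℝ) ^ (y - 16 ^ (i : ℕ)) ≤ aa F q i := by exact_mod_cast h2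
      have h6 : (s i : ℝ) ≤ m := by exact_mod_cast hsm i
      have h7 : (q : ℝ) ^ ((15 * y - 1) / 16 : ℝ) ≤ (q : ℝ) ^ (y - 16 ^ (i : ℕ)) := by
        rw [← Real.rpow_natCast]
        apply Real.rpow_le_rpow_of_exponent_le hq1
        rw [Nat.cast_sub hpow]
        have : (16 : ℝ) * ((16 ^ (i : ℕ) : ℕ) : ℝ) ≤ (y : ℝ) + 1 := by exact_mod_cast h16
        linarith
      rw [Real.rpow_neg hq'.le, ← one_div, div_le_div_iff₀ hapos' (Real.rpow_pos_of_pos hq' _),
        one_mul]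
      calc (s i : ℝ) * (q : ℝ) ^ ((15 * y - 1) / 16 : ℝ)
          ≤ (m : ℝ) * (q : ℝ) ^ (y - 16 ^ (i : ℕ)) :=
            mul_le_mul h6 h7 (Real.rpow_pos_of_pos hq' _).le (Nat.cast_nonneg _)
        _ ≤ _ := h5
    calc ((s i : ℝ) / aa F q i) ^ ((2 / 3 : ℝ) * s i)
        ≤ ((q : ℝ) ^ (-((15 * y - 1) / 16 : ℝ))) ^ ((2 / 3 : ℝ) * s i) :=
          Real.rpow_le_rpow (by positivity) h4 (by positivity)
      _ = (q : ℝ) ^ (-((15 * y - 1) / 24 : ℝ) * s i) := by
          rw [← Real.rpow_mul hq'.le]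
          congr 1
          ring
  have hprod : ∏ i, P i ≤ (q : ℝ) ^ (-((15 * y - 1) / 24 : ℝ) * ((∑ i ∈ deep, s i : ℕ) : ℝ)) := by
    calc ∏ i, P i = (∏ i ∈ deep, P i) * ∏ i ∈ univ \ deep, P i := by
          rw [mul_comm, prod_sdiff (subset_univ deep)]
      _ ≤ (∏ i ∈ deep, (q : ℝ) ^ (-((15 * y - 1) / 24 : ℝ) * s i)) * 1 := by
          apply mul_le_mul
          · exact prod_le_prod (fun i _ => hP0 i) hdeepP
          · exact prod_le_one (fun i _ => hP0 i) (fun i _ => hP1 i)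
          · exact prod_nonneg fun i _ => hP0 i
          · exact prod_nonneg fun i _ => (Real.rpow_pos_of_pos hq' _).le
      _ = _ := by
          rw [mul_one, ← Real.rpow_sum_of_pos hq', ← mul_sum]
          push_cast
          rfl
  refine hprod.trans ?_
  have hmr : (0 : ℝ) < m := by exact_mod_cast hm
  have hdr : 15 * (m : ℝ) ≤ 8 * ((∑ i ∈ deep, s i : ℕ) : ℝ) := by exact_mod_cast hdeepS
  have hexp : (q : ℝ) ^ (-((15 * y - 1) / 24 : ℝ) * ((∑ i ∈ deep, s i : ℕ) : ℝ)) ≤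
      (q : ℝ) ^ (-((y : ℝ) + 2) * m) := by
    apply Real.rpow_le_rpow_of_exponent_le hq1
    have h1 : ((15 * y - 1) / 24 : ℝ) * (15 / 8 * m) ≤
        ((15 * y - 1) / 24 : ℝ) * ((∑ i ∈ deep, s i : ℕ) : ℝ) := by
      apply mul_le_mul_of_nonneg_left
      · linarith
      · linarith
    have h2 : ((y : ℝ) + 2) * m ≤ ((15 * y - 1) / 24 : ℝ) * (15 / 8 * m) := by
      have : ((y : ℝ) + 2) ≤ ((15 * y - 1) / 24 : ℝ) * (15 / 8) := by linarith
      nlinarith
    linarith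
  refine hexp.trans ?_
  have hnr : (0 : ℝ) < nn F q := by exact_mod_cast nn_pos F q hq0
  have h5 : (q : ℝ) ^ (-((y : ℝ) + 2) * m) = (((q : ℝ) ^ (y + 1))⁻¹ / q) ^ m := by
    rw [Real.rpow_mul hq'.le, Real.rpow_natCast]
    congr 1
    rw [Real.rpow_neg hq'.le, show (y : ℝ) + 2 = ((y + 1 : ℕ) : ℝ) + 1 by push_cast; ring,
      Real.rpow_add_one hq'.ne', Real.rpow_natCast, mul_inv]
    rfl
  rw [h5]
  apply pow_le_pow_left₀ (by positivity)
  apply div_le_div_of_nonneg_right _ hq'.le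
  rw [← one_div, div_le_div_iff₀ (by positivity) hnr, one_mul]
  have : (nn F q : ℝ) < (m : ℝ) * (q : ℝ) ^ (y + 1) := by exact_mod_cast hy2'
  exact this.le

end Pool.Agent.Helper736_QR
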