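import Pool.Agent.Helper736_QR.Numeric

set_option autoImplicit false

namespace Pool.Agent.Helper736_QR

open Finset

/-- an admissible choice of a set `B` of vertices and of the sets `S i` of those which use their
edge to the level `i` -/
def Valid (F D q : ℕ) (B : Finset (Fin (nn F q))) (S : Fin F → Finset (Fin (nn F q))) : Prop :=
  B.Nonempty ∧ (∀ i, S i ⊆ B) ∧ (∀ i, (S i).card ≤ D * aa F q i) ∧
    3 * B.card ≤ ∑ i, (S i).card

theorem geo (n : ℕ) : ∑ m ∈ range (n + 1), (if m = 0 then (0 : ℝ) else (1 / 4) ^ m) =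
    (1 - (1 / 4) ^ n) / 3 := by
  induction n with
  | zero => simp
  | succ n ih =>
    rw [sum_range_succ, ih, if_neg (by omega)]
    ring

open Classical in
theorem card_valid_le (F D q : ℕ) (hq : 2 ≤ q) (hqD : 8 * F * D ≤ q)
    (B : Finset (Fin (nn F q))) (S : Fin F → Finset (Fin (nn F q))) (h : Valid F D q B S) :
    ((univ.filter (fun f : (i : Fin F) → Fin (nn F q) → Fin (aa F q i) =>
      ∀ i, 3 * ((S i).image (f i)).card ≤ (S i).card)).card : ℝ) ≤
      (∏ i : Fin F, (aa F q i : ℝ) ^ nn F q) * ((B.card : ℝ) / nn F q / q) ^ B.card := by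
  have hq0 : 0 < q := by omega
  have e1 : univ.filter (fun f : (i : Fin F) → Fin (nn F q) → Fin (aa F q i) =>
      ∀ i, 3 * ((S i).image (f i)).card ≤ (S i).card) =
      Fintype.piFinset (fun i : Fin F => univ.filter (fun g : Fin (nn F q) → Fin (aa F q i) =>
        3 * ((S i).image g).card ≤ (S i).card)) := by
    ext f
    simp [Fintype.mem_piFinset]
  rw [e1, Fintype.card_piFinset]
  push_cast
  set P : Fin F → ℝ := fun i => ((univ.filter (fun g : Fin (nn F q) → Fin (aa F q i) =>
        3 * ((S i).image g).card ≤ (S i).card)).card : ℝ) / (aa F q i : ℝ) ^ nn F q with hP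
  have hpos : ∀ i : Fin F, (0 : ℝ) < (aa F q i : ℝ) ^ nn F q := fun i => by
    have := aa_pos F q i hq0
    positivity
  have e2 : ∀ i : Fin F, ((univ.filter (fun g : Fin (nn F q) → Fin (aa F q i) =>
        3 * ((S i).image g).card ≤ (S i).card)).card : ℝ) = (aa F q i : ℝ) ^ nn F q * P i := by
    intro i
    simp only [hP]
    rw [mul_div_cancel₀]
    exact (hpos i).ne'
  rw [prod_congr rfl fun i _ => e2 i, prod_mul_distrib]
  apply mul_le_mul_of_nonneg_left _ (prod_nonneg fun i _ => (hpos i).le)
  obtain ⟨hB, hSB, hSD, hS3⟩ := h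
  have hBn : B.card ≤ nn F q := by
    have h := B.card_le_univ
    rwa [Fintype.card_fin] at h
  apply prod_bound F D q B.card hq hqD hB.card_pos hBn (fun i => (S i).card) (fun i => card_le_card (hSB i)) hSD hS3 P
  · intro i
    exact div_nonneg (Nat.cast_nonneg _) (hpos i).le
  · intro i
    refine (div_le_one (hpos i)).2 ?_
    have h1 : (univ.filter (fun g : Fin (nn F q) → Fin (aa F q i) =>
        3 * ((S i).image g).card ≤ (S i).card)).card ≤ (aa F q i) ^ nn F q := by
      refine (card_le_univ _).trans ?_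
      rw [Fintype.card_fun, Fintype.card_fin, Fintype.card_fin]
    exact_mod_cast h1
  · intro i hi
    have h1 := card_small_image (aa F q i) (aa_pos F q i hq0) (S i) hi
    rw [Fintype.card_fin] at h1
    refine (div_le_iff₀ (hpos i)).2 ?_
    rw [mul_comm]
    exact h1

open Classical in
theorem exists_good (F D q : ℕ) (hq : 2 ≤ q) (hqD : 8 * F * D ≤ q) (hqF : 12 * 2 ^ F ≤ q) :
    ∃ f : (i : Fin F) → Fin (nn F q) → Fin (aa F q i), ∀ B S, Valid F D q B S →
      ∃ i, (S i).card < 3 * ((S i).image (f i)).card := by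
  by_contra hcon
  push Not at hcon
  have hq0 : 0 < q := by omega
  have hqr : (0 : ℝ) < q := by exact_mod_cast hq0
  have hn0 := nn_pos F q hq0
  have hnr : (0 : ℝ) < nn F q := by exact_mod_cast hn0
  set A : ℝ := ∏ i : Fin F, (aa F q i : ℝ) ^ nn F q with hA
  have hA0 : 0 < A := by
    apply prod_pos
    intro i _
    have := aa_pos F q i hq0
    positivity
  have hΩ : ((univ : Finset ((i : Fin F) → Fin (nn F q) → Fin (aa F q i))).card : ℝ) = A := by
    rw [card_univ, Fintype.card_pi]
    push_cast
    rw [hA]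
    refine prod_congr rfl fun i _ => ?_
    rw [Fintype.card_fun, Fintype.card_fin, Fintype.card_fin]
    push_cast
    rfl
  have hcov : (univ : Finset ((i : Fin F) → Fin (nn F q) → Fin (aa F q i))) ⊆
      (univ : Finset (Finset (Fin (nn F q)))).biUnion (fun B =>
        (Fintype.piFinset (fun _ : Fin F => B.powerset)).biUnion (fun S =>
          if Valid F D q B S then
            univ.filter (fun f : (i : Fin F) → Fin (nn F q) → Fin (aa F q i) =>
              ∀ i, 3 * ((S i).image (f i)).card ≤ (S i).card) else ∅)) := by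
    intro f _
    obtain ⟨B, S, hV, hfS⟩ := hcon f
    rw [mem_biUnion]
    refine ⟨B, mem_univ _, ?_⟩
    rw [mem_biUnion]
    refine ⟨S, ?_, ?_⟩
    · rw [Fintype.mem_piFinset]
      intro i
      rw [mem_powerset]
      exact hV.2.1 i
    · rw [if_pos hV, mem_filter]
      exact ⟨mem_univ _, hfS⟩
  have h1 : (univ : Finset ((i : Fin F) → Fin (nn F q) → Fin (aa F q i))).card ≤
      ∑ B : Finset (Fin (nn F q)), ∑ S ∈ Fintype.piFinset (fun _ : Fin F => B.powerset),
        (if Valid F D q B S then
            univ.filter (fun f : (i : Fin F) → Fin (nn F q) → Fin (aa F q i) =>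
              ∀ i, 3 * ((S i).image (f i)).card ≤ (S i).card) else ∅).card :=
    (card_le_card hcov).trans (card_biUnion_le.trans (sum_le_sum fun B _ => card_biUnion_le))
  have h2 : A ≤ ∑ B : Finset (Fin (nn F q)), ∑ S ∈ Fintype.piFinset (fun _ : Fin F => B.powerset),
        (((if Valid F D q B S then
            univ.filter (fun f : (i : Fin F) → Fin (nn F q) → Fin (aa F q i) =>
              ∀ i, 3 * ((S i).image (f i)).card ≤ (S i).card) else ∅).card : ℕ) : ℝ) := by
    rw [← hΩ]
    exact_mod_cast h1
  set g : ℕ → ℝ := fun m => if m = 0 then 0 else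
    (2 ^ m) ^ F * (A * ((m : ℝ) / nn F q / q) ^ m) with hg
  have h3 : ∀ B : Finset (Fin (nn F q)), ∑ S ∈ Fintype.piFinset (fun _ : Fin F => B.powerset),
        (((if Valid F D q B S then
            univ.filter (fun f : (i : Fin F) → Fin (nn F q) → Fin (aa F q i) =>
              ∀ i, 3 * ((S i).image (f i)).card ≤ (S i).card) else ∅).card : ℕ) : ℝ) ≤
          g B.card := by
    intro B
    rcases Nat.eq_zero_or_pos B.card with h0 | h0
    · rw [hg]
      simp only [h0, if_true]
      apply sum_nonpos
      intro S _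
      rw [if_neg]
      · simp
      · intro hV
        have := hV.1.card_pos
        omega
    · have hb : ∀ S ∈ Fintype.piFinset (fun _ : Fin F => B.powerset),
        (((if Valid F D q B S then
            univ.filter (fun f : (i : Fin F) → Fin (nn F q) → Fin (aa F q i) =>
              ∀ i, 3 * ((S i).image (f i)).card ≤ (S i).card) else ∅).card : ℕ) : ℝ) ≤
          A * ((B.card : ℝ) / nn F q / q) ^ B.card := by
        intro S _
        split_ifs with hV
        · exact card_valid_le F D q hq hqD B S hV
        · simp only [card_empty, Nat.cast_zero]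
          positivity
      refine (sum_le_sum hb).trans ?_
      rw [sum_const, Fintype.card_piFinset]
      simp only [card_powerset, prod_const, card_univ, Fintype.card_fin, nsmul_eq_mul]
      rw [hg]
      simp only
      rw [if_neg (by omega)]
      push_cast
      exact le_rfl
  have h4 : A ≤ ∑ B : Finset (Fin (nn F q)), g B.card := h2.trans (sum_le_sum fun B _ => h3 B)
  have h5 : ∑ B : Finset (Fin (nn F q)), g B.card =
      ∑ m ∈ range (nn F q + 1), (nn F q).choose m • g m := by
    have := Finset.sum_powerset_apply_card g (x := (univ : Finset (Fin (nn F q))))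
    rw [card_univ, Fintype.card_fin] at this
    rw [← this]
    congr 1
  have h6 : ∀ m ∈ range (nn F q + 1), (nn F q).choose m • g m ≤
      A * (if m = 0 then (0 : ℝ) else (1 / 4) ^ m) := by
    intro m _
    rw [hg]
    simp only
    split_ifs with hm
    · simp
    · have hmpos : 0 < m := Nat.pos_of_ne_zero hm
      have hmr : (0 : ℝ) < m := by exact_mod_cast hmpos
      rw [nsmul_eq_mul]
      have c1 : ((nn F q).choose m : ℝ) ≤ (nn F q : ℝ) ^ m / (m.factorial : ℝ) :=
        Nat.choose_le_pow_div m _
      have c2 : (m : ℝ) ^ m / (m.factorial : ℝ) ≤ Real.exp m :=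
        Real.pow_div_factorial_le_exp _ hmr.le m
      have c3 : Real.exp (m : ℝ) ≤ (3 : ℝ) ^ m := by
        have h := Real.exp_one_lt_three
        calc Real.exp (m : ℝ) = (Real.exp 1) ^ m := by
              rw [← Real.exp_nat_mul, mul_one]
          _ ≤ (3 : ℝ) ^ m := pow_le_pow_left₀ (Real.exp_pos _).le h.le m
      calc ((nn F q).choose m : ℝ) * ((2 ^ m) ^ F * (A * ((m : ℝ) / nn F q / q) ^ m))
          ≤ ((nn F q : ℝ) ^ m / (m.factorial : ℝ)) *
            ((2 ^ m) ^ F * (A * ((m : ℝ) / nn F q / q) ^ m)) := by gcongr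
        _ = A * (((m : ℝ) ^ m / (m.factorial : ℝ)) * (2 ^ F / q) ^ m) := by
            rw [div_pow, div_pow, div_pow, ← pow_mul, ← pow_mul, mul_comm F m]
            field_simp
        _ ≤ A * ((3 : ℝ) ^ m * (2 ^ F / q) ^ m) := by
            gcongr
            exact c2.trans c3
        _ ≤ A * (1 / 4) ^ m := by
            rw [← mul_pow]
            gcongr
            have : (12 : ℝ) * 2 ^ F ≤ q := by exact_mod_cast hqF
            rw [← mul_div_assoc, div_le_div_iff₀ hqr (by norm_num)]
            linarith
  have h7 : A ≤ A * ((1 - (1 / 4) ^ (nn F q)) / 3) := by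
    calc A ≤ ∑ m ∈ range (nn F q + 1), (nn F q).choose m • g m := h4.trans h5.le
      _ ≤ ∑ m ∈ range (nn F q + 1), A * (if m = 0 then (0 : ℝ) else (1 / 4) ^ m) :=
          sum_le_sum h6
      _ = _ := by rw [← mul_sum, geo]
  have h8 : (0 : ℝ) < (1 / 4) ^ (nn F q) := by positivity
  nlinarith

end Pool.Agent.Helper736_QR
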